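import Mathlib

/-!
# K15-TOR: arithmetic of the points of odd order of `y² = x (x + 9 m) (x - 16 m)`
-/

set_option autoImplicit false

namespace Pool.Agent.N247.K15

lemma coprime_of {U V c m : ℤ} (hs : Squarefree m) (hc : ∀ q : ℕ, q.Prime → (q : ℤ) ∣ U → ¬ q ∣ c.natAbs)
    (h : V ^ 2 = U ^ 2 - c * m) : IsCoprime U m := by
  rw [Int.isCoprime_iff_gcd_eq_one]
  by_contra hne
  obtain ⟨q, hq, hqd⟩ := Nat.exists_prime_and_dvd hne
  have hqU : (q : ℤ) ∣ U := (Int.natCast_dvd_natCast.2 hqd).trans (Int.gcd_dvd_left _ _)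
  have hqm : (q : ℤ) ∣ m := (Int.natCast_dvd_natCast.2 hqd).trans (Int.gcd_dvd_right _ _)
  have hqp : Prime (q : ℤ) := Nat.prime_iff_prime_int.1 hq
  have hqV : (q : ℤ) ∣ V := by
    apply hqp.dvd_of_dvd_pow (n := 2)
    rw [h]
    exact dvd_sub (dvd_pow hqU two_ne_zero) (dvd_mul_of_dvd_right hqm _)
  have h2 : (q : ℤ) ^ 2 ∣ m * c := by
    have e : m * c = U ^ 2 - V ^ 2 := by rw [h]; ring
    rw [e]
    exact dvd_sub (pow_dvd_pow_of_dvd hqU 2) (pow_dvd_pow_of_dvd hqV 2)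
  have hco : IsCoprime ((q : ℤ) ^ 2) c := by
    apply IsCoprime.pow_left
    rw [Int.isCoprime_iff_gcd_eq_one, Int.gcd_def, Int.natAbs_natCast]
    exact (Nat.Prime.coprime_iff_not_dvd hq).2 (hc q hq hqU)
  have h3 : (q : ℤ) ^ 2 ∣ m := hco.dvd_of_dvd_mul_right h2
  rw [pow_two] at h3
  have h4 := hs _ h3
  exact hqp.not_isUnit h4

lemma c81 {U : ℤ} (h3 : ¬ (3 : ℤ) ∣ U) (q : ℕ) (hq : q.Prime) (hqU : (q : ℤ) ∣ U) :
    ¬ q ∣ 81 := by
  intro h9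
  have : q ∣ 3 ^ 4 := h9
  have h4 := hq.dvd_of_dvd_pow this
  rw [(Nat.prime_dvd_prime_iff_eq hq Nat.prime_three).1 h4] at hqU
  exact h3 (by exact_mod_cast hqU)

lemma fin_A : ∀ A ∈ Nat.divisors 16, ∀ B ∈ Nat.divisors 25,
    (81 : ℤ) ∣ (B : ℤ) ^ 2 - (A : ℤ) ^ 2 → A = B := by
  decide +kernel

lemma arithA {m U V W U' : ℤ} (hs : Squarefree m) (hV : V ^ 2 = U ^ 2 + 81 * m)
    (hU : 4 * U ^ 2 * V ^ 2 * W ^ 2 * U' ^ 2 = (U ^ 4 + 11664 * m ^ 2) ^ 2) :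
    (3 : ℤ) ∣ U := by
  by_contra h3
  have hm0 := hs.ne_zero
  have hp3 : Prime (3 : ℤ) := Int.prime_three
  have h3V : ¬ (3 : ℤ) ∣ V := by
    intro h
    apply h3
    apply hp3.dvd_of_dvd_pow (n := 2)
    have e : U ^ 2 = V ^ 2 - 3 * (27 * m) := by linarith
    rw [e]
    exact dvd_sub (dvd_pow h two_ne_zero) (dvd_mul_right _ _)
  have hco : IsCoprime U m := by
    refine coprime_of (c := -81) (V := V) hs ?_ (by rw [hV]; ring)
    exact fun q hq hqU => c81 h3 q hq hqU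
  have hcv : IsCoprime V m := by
    refine coprime_of (c := 81) (V := U) hs ?_ (by linarith)
    exact fun q hq hqU => c81 h3V q hq hqU
  have h2 : U ∣ U ^ 4 + 11664 * m ^ 2 := (Int.pow_dvd_pow_iff two_ne_zero).1 (by
    rw [← hU]
    exact ⟨4 * V ^ 2 * W ^ 2 * U' ^ 2, by ring⟩)
  have h2v : V ∣ U ^ 4 + 11664 * m ^ 2 := (Int.pow_dvd_pow_iff two_ne_zero).1 (by
    rw [← hU]
    exact ⟨4 * U ^ 2 * W ^ 2 * U' ^ 2, by ring⟩)
  have c3 : ∀ x : ℤ, ¬ (3 : ℤ) ∣ x → IsCoprime x (3 ^ 6 : ℤ) := by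
    intro x hx
    apply IsCoprime.pow_right
    rw [isCoprime_comm, Prime.coprime_iff_not_dvd hp3]
    exact hx
  have h4 : U ∣ 16 := by
    have h4 : U ∣ 11664 * m ^ 2 := (dvd_add_right (dvd_pow_self U (by norm_num))).1 h2
    have h5 : U ∣ 11664 := (hco.pow_right (n := 2)).dvd_of_dvd_mul_right h4
    have e : (11664 : ℤ) = 16 * 3 ^ 6 := by norm_num
    rw [e] at h5
    exact (c3 U h3).dvd_of_dvd_mul_right h5
  have h4v : V ∣ 25 := by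
    have e : U ^ 4 + 11664 * m ^ 2 = V * (V * (V ^ 2 - 162 * m)) + 18225 * m ^ 2 := by
      have : U ^ 2 = V ^ 2 - 81 * m := by rw [hV]; ring
      have h5 : U ^ 4 = (V ^ 2 - 81 * m) ^ 2 := by rw [← this]; ring
      rw [h5]; ring
    rw [e] at h2v
    have h4 : V ∣ 18225 * m ^ 2 := (dvd_add_right (dvd_mul_right V _)).1 h2v
    have h5 : V ∣ 18225 := (hcv.pow_right (n := 2)).dvd_of_dvd_mul_right h4
    have e : (18225 : ℤ) = 25 * 3 ^ 6 := by norm_num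
    rw [e] at h5
    exact (c3 V h3V).dvd_of_dvd_mul_right h5
  have hA : U.natAbs ∈ Nat.divisors 16 :=
    Nat.mem_divisors.2 ⟨Int.natAbs_dvd_natAbs.2 h4, by norm_num⟩
  have hB : V.natAbs ∈ Nat.divisors 25 :=
    Nat.mem_divisors.2 ⟨Int.natAbs_dvd_natAbs.2 h4v, by norm_num⟩
  have h6 := fin_A _ hA _ hB (by
    rw [Int.natAbs_sq, Int.natAbs_sq, hV]
    exact ⟨m, by ring⟩)
  have h7 : U ^ 2 = V ^ 2 := by
    rw [← Int.natAbs_sq U, ← Int.natAbs_sq V, h6]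
  apply hm0
  rw [← h7] at hV
  linarith

lemma fin_B : ∀ A ∈ Nat.divisors 144, ∀ B ∈ Nat.divisors 225,
    (9 : ℤ) ∣ (B : ℤ) ^ 2 - (A : ℤ) ^ 2 → 16 * (B : ℤ) ^ 2 ≤ 25 * (A : ℤ) ^ 2 →
    Nat.sqrt (25 * A ^ 2 - 16 * B ^ 2) ^ 2 = 25 * A ^ 2 - 16 * B ^ 2 →
    A = B ∨ 16 * B ^ 2 = 25 * A ^ 2 ∨ (A = 12 ∧ B = 9) := by
  decide +kernel

lemma arithB {m u v w u' : ℤ} (hs : Squarefree m)
    (hv : v ^ 2 = u ^ 2 + 9 * m) (hw : w ^ 2 = u ^ 2 - 16 * m)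
    (hu : 4 * u ^ 2 * v ^ 2 * w ^ 2 * u' ^ 2 = (u ^ 4 + 144 * m ^ 2) ^ 2) : False := by
  have hm0 := hs.ne_zero
  have hpos : 0 < (u ^ 4 + 144 * m ^ 2) ^ 2 := by positivity
  -- `u` is prime to `m`
  have hco : IsCoprime u m := by
    rw [Int.isCoprime_iff_gcd_eq_one]
    by_contra hne
    obtain ⟨q, hq, hqd⟩ := Nat.exists_prime_and_dvd hne
    have hqU : (q : ℤ) ∣ u := (Int.natCast_dvd_natCast.2 hqd).trans (Int.gcd_dvd_left _ _)
    have hqm : (q : ℤ) ∣ m := (Int.natCast_dvd_natCast.2 hqd).trans (Int.gcd_dvd_right _ _)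
    have hqp : Prime (q : ℤ) := Nat.prime_iff_prime_int.1 hq
    have hqV : (q : ℤ) ∣ v := by
      apply hqp.dvd_of_dvd_pow (n := 2)
      rw [hv]
      exact dvd_add (dvd_pow hqU two_ne_zero) (dvd_mul_of_dvd_right hqm _)
    have hqW : (q : ℤ) ∣ w := by
      apply hqp.dvd_of_dvd_pow (n := 2)
      rw [hw]
      exact dvd_sub (dvd_pow hqU two_ne_zero) (dvd_mul_of_dvd_right hqm _)
    have h9 : (q : ℤ) ^ 2 ∣ 9 * m := by
      have e : 9 * m = v ^ 2 - u ^ 2 := by rw [hv]; ring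
      rw [e]
      exact dvd_sub (pow_dvd_pow_of_dvd hqV 2) (pow_dvd_pow_of_dvd hqU 2)
    have h16 : (q : ℤ) ^ 2 ∣ 16 * m := by
      have e : 16 * m = u ^ 2 - w ^ 2 := by rw [hw]; ring
      rw [e]
      exact dvd_sub (pow_dvd_pow_of_dvd hqU 2) (pow_dvd_pow_of_dvd hqW 2)
    have h1 : (q : ℤ) ^ 2 ∣ m := by
      have e : m = 4 * (16 * m) - 7 * (9 * m) := by ring
      rw [e]
      exact dvd_sub (dvd_mul_of_dvd_right h16 _) (dvd_mul_of_dvd_right h9 _)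
    rw [pow_two] at h1
    exact hqp.not_isUnit (hs _ h1)
  have hcv : IsCoprime v m := by
    have h1 : IsCoprime (v ^ 2) m := by
      rw [hv]
      exact (hco.pow_left (m := 2)).add_mul_right_left 9
    exact (IsCoprime.pow_left_iff (by norm_num)).1 h1
  have h2 : u ∣ u ^ 4 + 144 * m ^ 2 := (Int.pow_dvd_pow_iff two_ne_zero).1 (by
    rw [← hu]
    exact ⟨4 * v ^ 2 * w ^ 2 * u' ^ 2, by ring⟩)
  have h2v : v ∣ u ^ 4 + 144 * m ^ 2 := (Int.pow_dvd_pow_iff two_ne_zero).1 (by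
    rw [← hu]
    exact ⟨4 * u ^ 2 * w ^ 2 * u' ^ 2, by ring⟩)
  have h3 : u ∣ 144 := by
    have h4 : u ∣ 144 * m ^ 2 := (dvd_add_right (dvd_pow_self u (by norm_num))).1 h2
    exact (hco.pow_right (n := 2)).dvd_of_dvd_mul_right h4
  have h3v : v ∣ 225 := by
    have e : u ^ 4 + 144 * m ^ 2 = v * (v * (v ^ 2 - 18 * m)) + 225 * m ^ 2 := by
      have : u ^ 2 = v ^ 2 - 9 * m := by rw [hv]; ring
      have h5 : u ^ 4 = (v ^ 2 - 9 * m) ^ 2 := by rw [← this]; ring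
      rw [h5]; ring
    rw [e] at h2v
    have h4 : v ∣ 225 * m ^ 2 := (dvd_add_right (dvd_mul_right v _)).1 h2v
    exact (hcv.pow_right (n := 2)).dvd_of_dvd_mul_right h4
  have hA : u.natAbs ∈ Nat.divisors 144 :=
    Nat.mem_divisors.2 ⟨Int.natAbs_dvd_natAbs.2 h3, by norm_num⟩
  have hB : v.natAbs ∈ Nat.divisors 225 :=
    Nat.mem_divisors.2 ⟨Int.natAbs_dvd_natAbs.2 h3v, by norm_num⟩
  have hus : ((u.natAbs : ℕ) : ℤ) ^ 2 = u ^ 2 := Int.natAbs_sq u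
  have hvs : ((v.natAbs : ℕ) : ℤ) ^ 2 = v ^ 2 := Int.natAbs_sq v
  have h9w : 25 * u ^ 2 - 16 * v ^ 2 = 9 * w ^ 2 := by rw [hv, hw]; ring
  have hle : 16 * v ^ 2 ≤ 25 * u ^ 2 := by nlinarith [sq_nonneg w]
  have hsub : 25 * u.natAbs ^ 2 - 16 * v.natAbs ^ 2 = (3 * w.natAbs) ^ 2 := by
    have h5 : 16 * v.natAbs ^ 2 ≤ 25 * u.natAbs ^ 2 := by
      have : 16 * ((v.natAbs : ℕ) : ℤ) ^ 2 ≤ 25 * ((u.natAbs : ℕ) : ℤ) ^ 2 := by
        rw [hus, hvs]; exact hle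
      exact_mod_cast this
    zify [h5]
    rw [sq_abs, sq_abs, mul_pow, sq_abs, h9w]
    norm_num
  rcases fin_B _ hA _ hB (by rw [hus, hvs, hv]; exact ⟨m, by ring⟩)
    (by rw [hus, hvs]; exact hle) (by rw [hsub, Nat.sqrt_eq']) with h | h | ⟨h, h'⟩
  · have h7 : u ^ 2 = v ^ 2 := by rw [← hus, ← hvs, h]
    apply hm0
    rw [← h7] at hv
    linarith
  · have h7 : 16 * v ^ 2 = 25 * u ^ 2 := by
      rw [← hus, ← hvs]
      exact_mod_cast h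
    have h8 : w ^ 2 = 0 := by linarith
    rw [h8] at hu
    rw [← hu] at hpos
    simp at hpos
  · rw [h] at hus
    rw [h'] at hvs
    have e1 : u ^ 2 = 144 := by rw [← hus]; norm_num
    have e2 : v ^ 2 = 81 := by rw [← hvs]; norm_num
    have e3 : m = -7 := by linarith
    have e4 : w ^ 2 = 256 := by rw [hw, e1, e3]; norm_num
    have e5 : u ^ 4 = 20736 := by
      have : u ^ 4 = (u ^ 2) ^ 2 := by ring
      rw [this, e1]; norm_num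
    rw [e1, e2, e4, e5, e3] at hu
    norm_num at hu
    omega

end Pool.Agent.N247.K15
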