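import Pool.Agent.N247.K15.Ar
import Pool.Agent.N875.X15.Tors
import Pool.Agent.N373.P24.Ker
import Pool.Agent.Y700.VC

/-!
# There is no point of odd order on `y² = x (x + 9 m) (x - 16 m)` over the rational numbers

The method and most of the lemmas are those of helper373 (level 24) and helper871 (level 17).
-/

set_option autoImplicit false
set_option linter.style.haveILetI false

namespace Pool.Agent.N247.K15

open WeierstrassCurve
open Pool.Agent.TH841.SH (IsR)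
open Pool.Agent.N875.X15 (dbl_sq dbl_T isR_eqn two_tor sq_cancel card_four finite_tors
  Em EQm isR)
open Pool.Agent.N373.P24 (torsion_int)
open Pool.Agent.H901R3.MS (CV Pt)

open scoped Classical

variable {m : ℤ}

lemma eqnQ {x y : ℚ} (h : (EQm m).toAffine.Nonsingular x y) :
    y ^ 2 = x * (x + 9 * m) * (x - 16 * m) := by
  have := (isR_eqn (isR m)).1 h.1
  rw [this]
  push_cast
  ring

/-- doubling -/
lemma dblQ {x y : ℚ} (h : (EQm m).toAffine.Nonsingular x y) (hy : y ≠ 0) :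
    ∃ X Y, ∃ H : (EQm m).toAffine.Nonsingular X Y,
      (Affine.Point.some x y h + Affine.Point.some x y h : (EQm m).toAffine.Point) =
        Affine.Point.some X Y H ∧ X * (2 * y) ^ 2 = (x ^ 2 + 144 * m ^ 2) ^ 2 := by
  have hR := isR m
  have hneg : y ≠ (EQm m).toAffine.negY x y := by
    intro h1
    apply hy
    rw [Affine.negY, hR.h1, hR.h3] at h1
    linear_combination (1 / 2 : ℚ) * h1
  rw [Affine.Point.add_self_of_Y_ne hneg]
  refine ⟨_, _, _, rfl, ?_⟩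
  have q1 := eqnQ h
  have h2y : 2 * y ≠ 0 := mul_ne_zero two_ne_zero hy
  have hs : (EQm m).toAffine.slope x x y y = (3 * x ^ 2 - 14 * m * x - 144 * m ^ 2) / (2 * y) := by
    rw [Affine.slope_of_Y_ne rfl hneg, Affine.negY, hR.h1, hR.h2, hR.h3, hR.h4]
    congr 1
    · push_cast; ring
    · ring
  rw [Affine.addX, hs, hR.h1, hR.h2, zero_mul, add_zero]
  push_cast
  field_simp
  linear_combination (-4 * (2 * x - 7 * m)) * q1

lemma val_dbl (hm : m ≠ 0) {x y X : ℚ} (h1 : y ^ 2 = x * (x + 9 * m) * (x - 16 * m)) (hy : y ≠ 0)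
    (h2 : X * (2 * y) ^ 2 = (x ^ 2 + 144 * m ^ 2) ^ 2) (hx : padicValRat 2 x < 0) :
    padicValRat 2 X = padicValRat 2 x - 2 := by
  have hx0 : x ≠ 0 := by
    rintro rfl
    simp at hx
  have hy2 : y ^ 2 ≠ 0 := pow_ne_zero 2 hy
  have hxm : x + 9 * m ≠ 0 := by
    intro h
    rw [h1, h] at hy2
    simp at hy2
  have hxm3 : x - 16 * m ≠ 0 := by
    intro h
    rw [h1, h] at hy2
    simp at hy2
  have hmQ : (m : ℚ) ≠ 0 := by exact_mod_cast hm
  have hint : ∀ z : ℤ, 0 ≤ padicValRat 2 (z : ℚ) := by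
    intro z
    rw [padicValRat.of_int]
    exact Int.natCast_nonneg _
  have hpos : (0 : ℚ) < x ^ 2 + 144 * m ^ 2 := by positivity
  have v1 : padicValRat 2 (x + 9 * m) = padicValRat 2 x := by
    have e : x + 9 * (m : ℚ) = x + ((9 * m : ℤ) : ℚ) := by push_cast; ring
    rw [e]
    refine padicValRat.add_eq_of_lt (by rw [← e]; exact hxm) hx0 ?_ (lt_of_lt_of_le hx (hint _))
    push_cast
    exact mul_ne_zero (by norm_num) hmQ
  have v2 : padicValRat 2 (x - 16 * m) = padicValRat 2 x := by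
    have e : x - 16 * (m : ℚ) = x + ((-16 * m : ℤ) : ℚ) := by push_cast; ring
    rw [e]
    refine padicValRat.add_eq_of_lt (by rw [← e]; exact hxm3) hx0 ?_ (lt_of_lt_of_le hx (hint _))
    push_cast
    exact mul_ne_zero (by norm_num) hmQ
  have v3 : padicValRat 2 (x ^ 2 + 144 * m ^ 2) = 2 * padicValRat 2 x := by
    have e : x ^ 2 + 144 * (m : ℚ) ^ 2 = x ^ 2 + ((144 * m ^ 2 : ℤ) : ℚ) := by push_cast; ring
    have e2 : padicValRat 2 (x ^ 2) = 2 * padicValRat 2 x := by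
      rw [padicValRat.pow]
      push_cast
      ring
    rw [e, ← e2]
    refine padicValRat.add_eq_of_lt (by rw [← e]; exact hpos.ne') (pow_ne_zero 2 hx0) ?_ ?_
    · push_cast
      exact mul_ne_zero (by norm_num) (pow_ne_zero 2 hmQ)
    · rw [e2]
      exact lt_of_lt_of_le (by linarith) (hint _)
  have v4 : padicValRat 2 (y ^ 2) = 3 * padicValRat 2 x := by
    rw [h1, padicValRat.mul (mul_ne_zero hx0 hxm) hxm3, padicValRat.mul hx0 hxm, v1, v2]
    ring
  have hX0 : X ≠ 0 := by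
    rintro rfl
    rw [zero_mul] at h2
    exact (pow_ne_zero 2 hpos.ne') h2.symm
  have v5 : padicValRat 2 (X * (2 * y) ^ 2) = padicValRat 2 X + 2 + 3 * padicValRat 2 x := by
    have e : X * (2 * y) ^ 2 = X * 2 ^ 2 * y ^ 2 := by ring
    rw [e, padicValRat.mul (mul_ne_zero hX0 (by norm_num)) hy2,
      padicValRat.mul hX0 (by norm_num), padicValRat.pow, v4]
    have : padicValRat 2 (2 : ℚ) = 1 := by
      have := padicValRat.self (p := 2) (by norm_num)
      exact_mod_cast this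
    rw [this]
    ring
  rw [h2, padicValRat.pow, v3] at v5
  push_cast at v5
  linarith

/-- a point of odd order that is killed by two is zero -/
lemma zero_of_two {A : Type} [AddCommGroup A] {P : A} {N : ℕ} (hN : Odd N) (hP : N • P = 0)
    (h2 : P + P = 0) : P = 0 := by
  obtain ⟨k, rfl⟩ := hN
  rw [add_nsmul, one_nsmul, mul_comm, mul_nsmul', two_nsmul, h2, nsmul_zero, zero_add] at hP
  exact hP

lemma y_ne {x y : ℚ} (h : (EQm m).toAffine.Nonsingular x y) {N : ℕ} (hN : Odd N)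
    (hP : N • (Affine.Point.some x y h : (EQm m).toAffine.Point) = 0) : y ≠ 0 := by
  rintro rfl
  exact Affine.Point.some_ne_zero h (zero_of_two hN hP (dbl_T (isR m) h))

lemma two_adic (hm : m ≠ 0) {x y : ℚ} (h : (EQm m).toAffine.Nonsingular x y) {N : ℕ} (hN : Odd N)
    (hP : N • (Affine.Point.some x y h : (EQm m).toAffine.Point) = 0) : 0 ≤ padicValRat 2 x := by
  by_contra hx
  push Not at hx
  have key : ∀ j : ℕ, ∃ X Y, ∃ H : (EQm m).toAffine.Nonsingular X Y,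
      2 ^ j • (Affine.Point.some x y h : (EQm m).toAffine.Point) = Affine.Point.some X Y H ∧
        padicValRat 2 X = padicValRat 2 x - 2 * j := by
    intro j
    induction j with
    | zero => exact ⟨x, y, h, by rw [pow_zero, one_nsmul], by simp⟩
    | succ j ih =>
      obtain ⟨X, Y, H, e1, e2⟩ := ih
      have hN' : N • (Affine.Point.some X Y H : (EQm m).toAffine.Point) = 0 := by
        rw [← e1, ← mul_nsmul', mul_comm, mul_nsmul', hP, nsmul_zero]
      have hY := y_ne H hN hN'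
      obtain ⟨X', Y', H', e3, e4⟩ := dblQ H hY
      refine ⟨X', Y', H', ?_, ?_⟩
      · rw [pow_succ, mul_comm, mul_nsmul', two_nsmul, e1, e3]
      · rw [val_dbl hm (eqnQ H) hY e4 (by rw [e2]; have : (0 : ℤ) ≤ j := Int.natCast_nonneg j; linarith),
          e2]
        push_cast
        ring
  have hN0 : 0 < N := hN.pos
  obtain ⟨X, Y, H, e1, e2⟩ := key (Nat.totient N)
  have hmod : 2 ^ Nat.totient N ≡ 1 [MOD N] := Nat.ModEq.pow_totient (Nat.coprime_two_left.2 hN)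
  have h1 : 2 ^ Nat.totient N • (Affine.Point.some x y h : (EQm m).toAffine.Point) =
      Affine.Point.some x y h := by
    have h2 : N ∣ 2 ^ Nat.totient N - 1 := (Nat.modEq_iff_dvd' Nat.one_le_two_pow).1 hmod.symm
    obtain ⟨c, hc⟩ := h2
    have h3 : 2 ^ Nat.totient N = c * N + 1 := by
      have := Nat.one_le_two_pow (n := Nat.totient N)
      rw [mul_comm] at hc
      omega
    rw [h3, add_nsmul, one_nsmul, mul_nsmul', hP, nsmul_zero, zero_add]
  rw [h1] at e1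
  injection e1 with e3 e4
  rw [← e3] at e2
  have h5 : 0 < Nat.totient N := Nat.totient_pos.2 hN0
  have h6 : (0 : ℤ) < (Nat.totient N : ℕ) := by exact_mod_cast h5
  linarith

theorem Em_Δ (m : ℤ) : (Em m).Δ = 2 ^ 12 * 3 ^ 4 * 5 ^ 4 * m ^ 6 := by
  simp only [Em, WeierstrassCurve.Δ, WeierstrassCurve.b₂, WeierstrassCurve.b₄,
    WeierstrassCurve.b₆, WeierstrassCurve.b₈]
  ring

lemma Em_delta_ne (hm : m ≠ 0) : (EQm m).Δ ≠ 0 := by
  rw [map_Δ, Em_Δ]
  have : (2 ^ 12 * 3 ^ 4 * 5 ^ 4 * m ^ 6 : ℤ) ≠ 0 := mul_ne_zero (by norm_num) (pow_ne_zero 6 hm)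
  rw [eq_intCast]
  exact Int.cast_ne_zero.2 this

lemma vrE (m : ℤ) : Pool.Agent.Y700.VR (CV ((-12987 * m ^ 2 : ℤ) : ℚ) ((-263466 * m ^ 3 : ℤ) : ℚ))
    (EQm m) 3 (-21 * m) 0 0 := by
  refine ⟨by norm_num, ?_, ?_, ?_, ?_, ?_⟩ <;> simp [CV, Em] <;> ring

lemma den_lin (x : ℚ) (c d : ℤ) : ((c : ℚ) * x + d).den ∣ x.den := by
  refine (Rat.add_den_dvd _ _).trans ?_
  rw [Rat.den_intCast, mul_one]
  refine (Rat.mul_den_dvd _ _).trans ?_
  rw [Rat.den_intCast, one_mul]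

lemma int9 (hm : m ≠ 0) {x y : ℚ} (h : (EQm m).toAffine.Nonsingular x y) {N : ℕ} (hN : Odd N)
    (hP : N • (Affine.Point.some x y h : (EQm m).toAffine.Point) = 0) : ∃ z : ℤ, 9 * x = z := by
  have hD := Em_delta_ne hm
  have hfin : IsOfFinAddOrder (Affine.Point.some x y h : (EQm m).toAffine.Point) :=
    isOfFinAddOrder_iff_nsmul_eq_zero.2 ⟨N, hN.pos, hP⟩
  have hfin' := ((vrE m).equiv hD).toAddMonoidHom.isOfFinAddOrder hfin
  have e : ((vrE m).equiv hD).toAddMonoidHom (Affine.Point.some x y h) =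
      (vrE m).fn hD (Affine.Point.some x y h) := rfl
  rw [e, (vrE m).fn_some hD h] at hfin'
  have hodd : ∀ p : ℕ, p.Prime → p ≠ 2 → ¬ p ∣ ((3 : ℚ) ^ 2 * x + -21 * m).den := by
    intro p hp hp2
    haveI := Fact.mk hp
    exact torsion_int p hp2 _ _ _ hfin'
  have h2 : ¬ 2 ∣ x.den := by
    intro hd
    have h0 := two_adic hm h hN hP
    rw [padicValRat_def] at h0
    have h1 : 1 ≤ padicValNat 2 x.den := one_le_padicValNat_of_dvd x.den_nz hd
    have h3 : padicValInt 2 x.num = 0 := by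
      rw [padicValInt]
      apply padicValNat.eq_zero_of_not_dvd
      intro h4
      have h5 := Nat.dvd_gcd h4 hd
      rw [x.reduced] at h5
      omega
    rw [h3] at h0
    have h4 : (1 : ℤ) ≤ (padicValNat 2 x.den : ℤ) := by exact_mod_cast h1
    push_cast at h0
    linarith
  have h1 : ((3 : ℚ) ^ 2 * x + -21 * m).den = 1 := by
    by_contra hne
    obtain ⟨p, hp, hpd⟩ := Nat.exists_prime_and_dvd hne
    by_cases hp2 : p = 2
    · subst hp2
      have e2 : (3 : ℚ) ^ 2 * x + -21 * m = ((9 : ℤ) : ℚ) * x + ((-21 * m : ℤ) : ℚ) := by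
        push_cast; ring
      rw [e2] at hpd
      exact h2 (hpd.trans (den_lin x 9 (-21 * m)))
    · exact hodd p hp hp2 hpd
  refine ⟨((3 : ℚ) ^ 2 * x + -21 * m).num + 21 * m, ?_⟩
  have h3 : (((3 : ℚ) ^ 2 * x + -21 * m).num : ℚ) = (3 : ℚ) ^ 2 * x + -21 * m :=
    Rat.coe_int_num_of_den_eq_one h1
  push_cast
  rw [h3]
  ring

lemma sq_int {q : ℚ} (z : ℤ) (hz : 9 * q = z) (hq : IsSquare q) : ∃ U : ℤ, 9 * q = (U : ℚ) ^ 2 := by
  obtain ⟨r, rfl⟩ := hq
  have h1 : IsSquare ((z : ℤ) : ℚ) := ⟨3 * r, by rw [← hz]; ring⟩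
  rw [Rat.isSquare_intCast_iff] at h1
  obtain ⟨U, hU⟩ := h1
  refine ⟨U, ?_⟩
  rw [hz, hU]
  push_cast
  ring

lemma data (hm : m ≠ 0) {x y : ℚ} (h : (EQm m).toAffine.Nonsingular x y) {N : ℕ} (hN : Odd N)
    (hP : N • (Affine.Point.some x y h : (EQm m).toAffine.Point) = 0) :
    ∃ U V W : ℤ, 9 * x = (U : ℚ) ^ 2 ∧ 9 * (x + 9 * m) = (V : ℚ) ^ 2 ∧
      9 * (x - 16 * m) = (W : ℚ) ^ 2 := by
  obtain ⟨z, hz⟩ := int9 hm h hN hP
  obtain ⟨k, hk⟩ := hN
  -- half of the point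
  have hhalf : ∃ x' y', ∃ h' : (EQm m).toAffine.Nonsingular x' y', y' ≠ 0 ∧
      (Affine.Point.some x' y' h' + Affine.Point.some x' y' h' : (EQm m).toAffine.Point) =
        Affine.Point.some x y h := by
    obtain ⟨Q, hQ⟩ : ∃ Q, Q = (k + 1) • (Affine.Point.some x y h : (EQm m).toAffine.Point) := ⟨_, rfl⟩
    have h1 : Q + Q = Affine.Point.some x y h := by
      rw [hQ, ← add_nsmul]
      have : k + 1 + (k + 1) = N + 1 := by omega
      rw [this, add_nsmul, hP, one_nsmul, zero_add]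
    rcases Q with _ | ⟨x', y', h'⟩
    · exact absurd h1.symm (Affine.Point.some_ne_zero h)
    · refine ⟨x', y', h', ?_, h1⟩
      rintro rfl
      rw [dbl_T (isR m) h'] at h1
      exact Affine.Point.some_ne_zero h h1.symm
  obtain ⟨x', y', h', hy', he⟩ := hhalf
  have hR := isR m
  have k1 := dbl_sq hR two_ne_zero h' hy' h he
  have k2 := dbl_sq hR.rot two_ne_zero h' hy' h he
  have k3 := dbl_sq hR.rot.rot two_ne_zero h' hy' h he
  obtain ⟨U, hU⟩ := sq_int (q := x) z hz (by simpa using k1)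
  have k2' : IsSquare (x + 9 * (m : ℚ)) := by
    have e : x - ((-9 * m : ℤ) : ℚ) = x + 9 * m := by push_cast; ring
    rw [← e]; exact k2
  have k3' : IsSquare (x - 16 * (m : ℚ)) := by
    have e : x - ((16 * m : ℤ) : ℚ) = x - 16 * m := by push_cast; ring
    rw [← e]; exact k3
  obtain ⟨V, hV⟩ := sq_int (q := x + 9 * m) (z + 81 * m) (by push_cast; linear_combination hz) k2'
  obtain ⟨W, hW⟩ := sq_int (q := x - 16 * m) (z - 144 * m) (by push_cast; linear_combination hz) k3'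
  exact ⟨U, V, W, hU, hV, hW⟩

/-- the relation between a point and its double -/
lemma rel {x y X : ℚ} {U V W U' : ℤ} (h1 : y ^ 2 = x * (x + 9 * m) * (x - 16 * m))
    (h2 : X * (2 * y) ^ 2 = (x ^ 2 + 144 * m ^ 2) ^ 2) (hU : 9 * x = (U : ℚ) ^ 2)
    (hV : 9 * (x + 9 * m) = (V : ℚ) ^ 2) (hW : 9 * (x - 16 * m) = (W : ℚ) ^ 2)
    (hU' : 9 * X = (U' : ℚ) ^ 2) :
    4 * U ^ 2 * V ^ 2 * W ^ 2 * U' ^ 2 = (U ^ 4 + 11664 * m ^ 2) ^ 2 := by
  have h : (4 * (U : ℚ) ^ 2 * V ^ 2 * W ^ 2 * U' ^ 2) = ((U : ℚ) ^ 4 + 11664 * m ^ 2) ^ 2 := by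
    have e4 : (U : ℚ) ^ 4 = ((U : ℚ) ^ 2) ^ 2 := by ring
    rw [e4, ← hU, ← hV, ← hW, ← hU']
    linear_combination 6561 * h2 - 4 * 6561 * X * h1
  exact_mod_cast h

lemma intV {x : ℚ} {U V : ℤ} (hU : 9 * x = (U : ℚ) ^ 2) (hV : 9 * (x + 9 * m) = (V : ℚ) ^ 2) :
    V ^ 2 = U ^ 2 + 81 * m := by
  have h : (V : ℚ) ^ 2 = (U : ℚ) ^ 2 + 81 * m := by rw [← hU, ← hV]; ring
  exact_mod_cast h

lemma intW {x : ℚ} {U W : ℤ} (hU : 9 * x = (U : ℚ) ^ 2) (hW : 9 * (x - 16 * m) = (W : ℚ) ^ 2) :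
    W ^ 2 = U ^ 2 - 144 * m := by
  have h : (W : ℚ) ^ 2 = (U : ℚ) ^ 2 - 144 * m := by rw [← hU, ← hW]; ring
  exact_mod_cast h

/-- **There is no nonzero point of odd order.** -/
theorem no_odd (hs : Squarefree m)
    (P : (EQm m).toAffine.Point) {N : ℕ} (hN : Odd N) (hP : N • P = 0) : P = 0 := by
  by_contra hne
  have hm0 := hs.ne_zero
  -- three divides `U` for all nonzero points of odd order
  have stepA : ∀ (x y : ℚ) (h : (EQm m).toAffine.Nonsingular x y),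
      N • (Affine.Point.some x y h : (EQm m).toAffine.Point) = 0 →
      ∃ X Y, ∃ H : (EQm m).toAffine.Nonsingular X Y,
        N • (Affine.Point.some X Y H : (EQm m).toAffine.Point) = 0 ∧
        y ^ 2 = x * (x + 9 * m) * (x - 16 * m) ∧ X * (2 * y) ^ 2 = (x ^ 2 + 144 * m ^ 2) ^ 2 := by
    intro x y h hP
    obtain ⟨X, Y, H, e1, e2⟩ := dblQ h (y_ne h hN hP)
    refine ⟨X, Y, H, ?_, eqnQ h, e2⟩
    rw [← e1, nsmul_add, hP, add_zero]
  have stepB : ∀ (x y : ℚ) (h : (EQm m).toAffine.Nonsingular x y),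
      N • (Affine.Point.some x y h : (EQm m).toAffine.Point) = 0 →
      ∀ U V W : ℤ, 9 * x = (U : ℚ) ^ 2 → 9 * (x + 9 * m) = (V : ℚ) ^ 2 →
        9 * (x - 16 * m) = (W : ℚ) ^ 2 → (3 : ℤ) ∣ U := by
    intro x y h hP U V W hU hV hW
    obtain ⟨X, Y, H, hP', q1, q2⟩ := stepA x y h hP
    obtain ⟨U', V', W', hU', -, -⟩ := data hm0 H hN hP'
    exact arithA hs (intV hU hV) (rel q1 q2 hU hV hW hU')
  rcases P with _ | ⟨x, y, h⟩
  · exact hne rfl
  obtain ⟨X, Y, H, hP', q1, q2⟩ := stepA x y h hP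
  obtain ⟨U, V, W, hU, hV, hW⟩ := data hm0 h hN hP
  obtain ⟨U', V', W', hU', hV', hW'⟩ := data hm0 H hN hP'
  have hrel := rel q1 q2 hU hV hW hU'
  have iV := intV hU hV
  have iW := intW hU hW
  obtain ⟨u, rfl⟩ := stepB x y h hP U V W hU hV hW
  obtain ⟨u', rfl⟩ := stepB X Y H hP' U' V' W' hU' hV' hW'
  have h3 : ∀ z : ℤ, (3 : ℤ) ∣ z ^ 2 → ∃ w, z = 3 * w := fun z hz =>
    Int.prime_three.dvd_of_dvd_pow hz
  obtain ⟨v, rfl⟩ := h3 V (by rw [iV]; exact ⟨3 * u ^ 2 + 27 * m, by ring⟩)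
  obtain ⟨w, rfl⟩ := h3 W (by rw [iW]; exact ⟨3 * u ^ 2 - 48 * m, by ring⟩)
  refine arithB (u := u) (v := v) (w := w) (u' := u') hs (by linarith) (by linarith) ?_
  have : 6561 * (4 * u ^ 2 * v ^ 2 * w ^ 2 * u' ^ 2) = 6561 * (u ^ 4 + 144 * m ^ 2) ^ 2 := by
    linear_combination hrel
  exact mul_left_cancel₀ (by norm_num) this

end Pool.Agent.N247.K15
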