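import Pool.Agent.N875.K15.Stm
import Pool.Agent.N717.QB.Tor
import Pool.Agent.N849.K17.Tor
import Pool.Agent.N247.K15.Odd

/-!
# K15-TOR: the torsion of `y² = x (x + 9) (x - 16)` over the quadratic fields other than `ℚ(i)`, `ℚ(√5)`
is of order eight

The structure of the proof and several lemmas are those of helper849 (K17-TOR).
-/

set_option autoImplicit false

open NumberField IsDedekindDomain WeierstrassCurve

namespace Pool.Agent.N247.K15

open scoped Classical

open Pool.Agent.TH841.SH (IsR)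
open Pool.Agent.N875.X15 (Em EQm WN vr WN_Δ_ne two_tor dbl_T isR_eqn)
open Pool.Agent.N717.QB (finite_tors torsEquiv two_card fg_of dbl_sq)
open Pool.Agent.Y682.XF (base)
open Pool.Agent.Y700 (VR)
open Pool.Agent.N875.K17 (Qd)
open Pool.Agent.N875.K15 (S_TOR)
open Pool.Agent.N849.K17 (sq_cases cj cj_cj cj_fix cj_neg neg_one_not_sq)

/-! ### groups -/

/-- a group with four elements killed by two, eight elements killed by four, and no element of
order eight -/
theorem card_eight {A : Type} [AddCommGroup A] [Finite A]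
    (h2 : Nat.card {x : A // x + x = 0} = 4) (R : A) (hR : R + R ≠ 0)
    (hRR : (R + R) + (R + R) = 0)
    (h4 : ∀ x : A, (x + x) + (x + x) = 0 → x + x = 0 ∨ x + x = R + R)
    (h8 : ∀ x : A, ((x + x) + (x + x)) + ((x + x) + (x + x)) = 0 → (x + x) + (x + x) = 0) :
    ∃ t : ℕ, Odd t ∧ Nat.card A = 8 * t := by
  let f : A →+ A := (AddMonoidHom.id A) + (AddMonoidHom.id A)
  have hf : ∀ x, f x = x + x := fun x => rfl
  let g : A →+ A := f.comp f
  have hg : ∀ x, g x = (x + x) + (x + x) := fun x => rfl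
  have hker2 : Nat.card f.ker = 4 := by
    rw [← h2]
    exact Nat.card_congr (Equiv.subtypeEquivRight fun x => by rw [AddMonoidHom.mem_ker, hf])
  -- the elements killed by four
  have hker : Nat.card g.ker = 8 := by
    let φ : g.ker →+ A := f.comp g.ker.subtype
    have hφ : ∀ x, φ x = (x : A) + x := fun x => rfl
    have h1 := AddSubgroup.card_eq_card_quotient_mul_card_addSubgroup φ.ker
    have h3 : Nat.card (g.ker ⧸ φ.ker) = Nat.card φ.range :=
      Nat.card_congr (QuotientAddGroup.quotientKerEquivRange φ).toEquiv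
    have h5 : Nat.card φ.ker = 4 := by
      rw [← hker2]
      refine Nat.card_congr ⟨fun x => ⟨x.1.1, ?_⟩, fun x => ⟨⟨x.1, ?_⟩, ?_⟩, fun x => rfl,
        fun x => rfl⟩
      · have := x.2
        rw [AddMonoidHom.mem_ker, hφ] at this
        rw [AddMonoidHom.mem_ker, hf]
        exact this
      · have := x.2
        rw [AddMonoidHom.mem_ker, hf] at this
        rw [AddMonoidHom.mem_ker, hg, this, add_zero]
      · have := x.2
        rw [AddMonoidHom.mem_ker, hf] at this
        rw [AddMonoidHom.mem_ker, hφ]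
        exact this
    have h6 : Nat.card φ.range = 2 := by
      have e : (φ.range : Set A) = {0, R + R} := by
        ext y
        rw [SetLike.mem_coe, AddMonoidHom.mem_range, Set.mem_insert_iff, Set.mem_singleton_iff]
        constructor
        · rintro ⟨x, rfl⟩
          rw [hφ]
          refine h4 x.1 ?_
          have := x.2
          rwa [AddMonoidHom.mem_ker, hg] at this
        · rintro (rfl | rfl)
          · exact ⟨0, map_zero φ⟩
          · exact ⟨⟨R, by rw [AddMonoidHom.mem_ker, hg]; exact hRR⟩, rfl⟩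
      have e2 : Nat.card φ.range = (φ.range : Set A).ncard := rfl
      rw [e2, e, Set.ncard_pair hR.symm]
    rw [h1, h3, h5, h6]
  refine ⟨Nat.card g.range, ?_, ?_⟩
  · rw [← Nat.not_even_iff_odd]
    intro he
    have : Fact (Nat.Prime 2) := ⟨Nat.prime_two⟩
    obtain ⟨x, hx⟩ := exists_prime_addOrderOf_dvd_card' (G := g.range) 2 (even_iff_two_dvd.1 he)
    have hx2 : x + x = 0 := by
      rw [← two_nsmul, ← hx]
      exact addOrderOf_nsmul_eq_zero x
    obtain ⟨⟨y, ⟨z, hz⟩⟩, rfl⟩ : ∃ y, y = x := ⟨x, rfl⟩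
    have h5 : y + y = 0 := congrArg Subtype.val hx2
    rw [hg] at hz
    rw [← hz] at h5
    have h6 := h8 z h5
    have h7 : y = 0 := by rw [← hz, h6]
    have h9 : (⟨y, ⟨z, hz⟩⟩ : g.range) = 0 := Subtype.ext h7
    rw [h9, addOrderOf_zero] at hx
    exact absurd hx (by norm_num)
  · have h1 := AddSubgroup.card_eq_card_quotient_mul_card_addSubgroup g.ker
    rw [hker] at h1
    have h3 : Nat.card (A ⧸ g.ker) = Nat.card g.range :=
      Nat.card_congr (QuotientAddGroup.quotientKerEquivRange g).toEquiv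
    rw [h1, h3, mul_comm]

section fld

variable {m : ℤ} {K : Type} [Field K] [NumberField K] {r : K}

lemma sq5 (h : Qd m K r) (hm : Squarefree m) (h1 : m ≠ 1) (h2 : m ≠ 5) :
    ¬ IsSquare (5 : K) := by
  intro hs
  have hs' : IsSquare (((5 : ℚ)) : K) := by
    push_cast; exact hs
  have hp : Prime (5 : ℤ) := by
    have := Nat.prime_iff_prime_int.1 (by norm_num : Nat.Prime 5)
    exact_mod_cast this
  rcases sq_cases h hm h1 hs' with ⟨a, ha⟩ | ⟨b, hb⟩
  · have h3 : IsSquare (((5 : ℤ)) : ℚ) := ⟨a, by push_cast; rw [← ha]; ring⟩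
    rw [Rat.isSquare_intCast_iff] at h3
    obtain ⟨x, hx⟩ := h3
    have hd : (5 : ℤ) ∣ x := by
      have : (5 : ℤ) ∣ x * x := ⟨1, by rw [← hx]; norm_num⟩
      rcases hp.dvd_mul.1 this with h | h <;> exact h
    obtain ⟨j, rfl⟩ := hd
    have h4 : 5 * (j * j) = 1 := by linarith
    omega
  · have h3 : IsSquare (((5 * m : ℤ)) : ℚ) := ⟨m * b, by push_cast; linear_combination (-m : ℚ) * hb⟩
    rw [Rat.isSquare_intCast_iff] at h3
    obtain ⟨x, hx⟩ := h3
    have hd : (5 : ℤ) ∣ x := by
      have : (5 : ℤ) ∣ x * x := ⟨m, hx.symm⟩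
      rcases hp.dvd_mul.1 this with h | h <;> exact h
    obtain ⟨j, rfl⟩ := hd
    have h4 : m = 5 * (j * j) := by linarith
    have e6 : IsUnit j := hm j ⟨5, by rw [h4]; ring⟩
    rcases Int.isUnit_iff.1 e6 with h | h <;> rw [h] at h4 <;> apply h2 <;> linarith

end fld

section odd

variable {m : ℤ} {K : Type} [Field K] [NumberField K] {r : K}

/-- the map from the rational points -/
noncomputable def up (K : Type) [Field K] [NumberField K] (m : ℤ) :
    (EQm m).toAffine.Point →+ ((Em m).map (Int.castRingHom K)).toAffine.Point :=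
  Affine.Point.map (W' := Em m) (S := ℚ) (F := ℚ) (K := K) (Algebra.ofId ℚ K)

lemma up_inj (K : Type) [Field K] [NumberField K] (m : ℤ) : Function.Injective (up K m) :=
  Affine.Point.map_injective (W' := Em m) (S := ℚ) (F := ℚ) (K := K) (Algebra.ofId ℚ K)

lemma ns_up {x y : ℚ} (h : ((Em m).map (Int.castRingHom K)).toAffine.Nonsingular (x : K) (y : K)) :
    (EQm m).toAffine.Nonsingular x y :=
  (Affine.baseChange_nonsingular (W := Em m) (S := ℚ) (A := ℚ) (B := K) (f := Algebra.ofId ℚ K)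
    (algebraMap ℚ K).injective x y).1 h

lemma up_some {x y : ℚ} (h : ((Em m).map (Int.castRingHom K)).toAffine.Nonsingular (x : K) (y : K)) :
    up K m (Affine.Point.some x y (ns_up h)) = Affine.Point.some (x : K) (y : K) h := rfl

/-- the conjugation on the points -/
noncomputable def cjP (m' : ℤ) (h : Qd m K r) (hm : Squarefree m) (h1 : m ≠ 1) :
    ((Em m').map (Int.castRingHom K)).toAffine.Point →+
      ((Em m').map (Int.castRingHom K)).toAffine.Point :=
  Affine.Point.map (W' := Em m') (S := ℚ) (F := K) (K := K) (cj h hm h1).toRatAlgHom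

lemma cjP_cjP (m' : ℤ) (h : Qd m K r) (hm : Squarefree m) (h1 : m ≠ 1)
    (P : ((Em m').map (Int.castRingHom K)).toAffine.Point) :
    cjP m' h hm h1 (cjP m' h hm h1 P) = P := by
  rcases P with _ | ⟨x, y, hP⟩
  · rfl
  · have e : cjP m' h hm h1 (cjP m' h hm h1 (Affine.Point.some x y hP)) =
      Affine.Point.some (cj h hm h1 (cj h hm h1 x)) (cj h hm h1 (cj h hm h1 y))
        (by rw [cj_cj, cj_cj]; exact hP) := rfl
    rw [e]
    congr 1
    · exact cj_cj h hm h1 x
    · exact cj_cj h hm h1 y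

lemma fix_up (m' : ℤ) (h : Qd m K r) (hm : Squarefree m) (h1 : m ≠ 1)
    (P : ((Em m').map (Int.castRingHom K)).toAffine.Point) (hP : cjP m' h hm h1 P = P) :
    ∃ Q, P = up K m' Q := by
  rcases P with _ | ⟨x, y, hxy⟩
  · exact ⟨0, rfl⟩
  · have e : cjP m' h hm h1 (Affine.Point.some x y hxy) =
      Affine.Point.some (cj h hm h1 x) (cj h hm h1 y) ((Affine.baseChange_nonsingular (W := Em m') (S := ℚ)
        (A := K) (B := K) (f := (cj h hm h1).toRatAlgHom) (RingHom.injective _) x y).2 hxy) := rfl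
    rw [e] at hP
    injection hP with e1 e2
    obtain ⟨a, rfl⟩ := cj_fix h hm h1 e1
    obtain ⟨b, rfl⟩ := cj_fix h hm h1 e2
    exact ⟨_, (up_some hxy).symm⟩

/-- the isomorphism with the twist -/
lemma vrT (h : Qd m K r) (hm : m ≠ 0) : VR ((Em m).map (Int.castRingHom K))
    ((Em 1).map (Int.castRingHom K)) r 0 0 0 := by
  have hr := h.hr
  refine ⟨?_, ?_, ?_, ?_, ?_, ?_⟩
  · rintro rfl
    rw [zero_pow two_ne_zero] at hr
    exact hm (by exact_mod_cast hr.symm)
  · simp [Em]
  · simp [Em, hr, mul_comm]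
  · simp [Em]
  · have : r ^ 4 = (m : K) ^ 2 := by rw [← hr]; ring
    simp [Em, this]
    ring
  · simp [Em]

/-- the twisted points -/
lemma anti_up (h : Qd m K r) (hm : Squarefree m) (h1 : m ≠ 1)
    (hD : ((Em 1).map (Int.castRingHom K)).Δ ≠ 0)
    (P : ((Em 1).map (Int.castRingHom K)).toAffine.Point) (hP : cjP 1 h hm h1 P = -P) :
    ∃ Q, (vrT h hm.ne_zero).equiv hD P = up K m Q := by
  rcases P with _ | ⟨x, y, hxy⟩
  · exact ⟨0, map_zero _⟩
  · have e : cjP 1 h hm h1 (Affine.Point.some x y hxy) =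
      Affine.Point.some (cj h hm h1 x) (cj h hm h1 y) ((Affine.baseChange_nonsingular (W := Em 1) (S := ℚ)
        (A := K) (B := K) (f := (cj h hm h1).toRatAlgHom) (RingHom.injective _) x y).2 hxy) := rfl
    rw [e, Affine.Point.neg_some] at hP
    injection hP with e1 e2
    obtain ⟨a, rfl⟩ := cj_fix h hm h1 e1
    have e3 : cj h hm h1 y = -y := by
      rw [e2, Affine.negY]
      simp [Em]
    obtain ⟨b, rfl⟩ := cj_neg h hm h1 e3
    have hr := h.hr
    rw [VR.equiv_apply, VR.fn_some]
    have k1 : r ^ 2 * (a : K) + 0 = ((m * a : ℚ) : K) := by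
      rw [hr]; push_cast; ring
    have k2 : r ^ 3 * ((b : K) * r) + r ^ 2 * 0 * (a : K) + 0 = ((m ^ 2 * b : ℚ) : K) := by
      have : r ^ 3 * ((b : K) * r) = (r ^ 2) ^ 2 * b := by ring
      rw [this, hr]; push_cast; ring
    have hns : ((Em m).map (Int.castRingHom K)).toAffine.Nonsingular ((m * a : ℚ) : K)
        ((m ^ 2 * b : ℚ) : K) := by
      rw [← k1, ← k2]
      exact Pool.Agent.Y700.nonsing ((vrT h hm.ne_zero).delta_ne hD)
        ((vrT h hm.ne_zero).eqn.2 hxy.1)
    refine ⟨_, Eq.trans ?_ (up_some hns).symm⟩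
    congr 1

lemma delta_ne (K : Type) [Field K] [NumberField K] : ((Em 1).map (Int.castRingHom K)).Δ ≠ 0 := by
  have e : (Em 1).map (Int.castRingHom K) = (EQm 1).map (algebraMap ℚ K) := by
    ext <;> simp [Em]
  rw [e, map_Δ]
  exact (map_ne_zero _).2 (Em_delta_ne one_ne_zero)

/-- **There is no nonzero point of odd order.** -/
theorem no_oddK (h : Qd m K r) (hm : Squarefree m) (h1 : m ≠ 1)
    (P : ((Em 1).map (Int.castRingHom K)).toAffine.Point) {N : ℕ} (hN : Odd N) (hP : N • P = 0) :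
    P = 0 := by
  have hD := delta_ne K
  -- the trace
  have ht : P + cjP 1 h hm h1 P = 0 := by
    obtain ⟨Q, hQ⟩ := fix_up 1 h hm h1 (P + cjP 1 h hm h1 P) (by
      rw [map_add, cjP_cjP, add_comm])
    have hNQ : N • (P + cjP 1 h hm h1 P) = 0 := by
      rw [nsmul_add, ← map_nsmul, hP, map_zero, add_zero]
    rw [hQ, ← map_nsmul] at hNQ
    have h3 : N • Q = 0 := up_inj K 1 (by rw [hNQ, map_zero])
    rw [hQ, no_odd squarefree_one Q hN h3, map_zero]
  have ht' : cjP 1 h hm h1 P = -P := by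
    rw [eq_neg_iff_add_eq_zero, add_comm]
    exact ht
  obtain ⟨Q, hQ⟩ := anti_up h hm h1 hD P ht'
  have hNQ : N • up K m Q = 0 := by
    rw [← hQ, ← map_nsmul, hP, map_zero]
  rw [← map_nsmul] at hNQ
  have h3 : N • Q = 0 := up_inj K m (by rw [hNQ, map_zero])
  rw [no_odd hm Q hN h3, map_zero] at hQ
  exact (EmbeddingLike.map_eq_zero_iff).1 hQ

end odd

section four

variable {m : ℤ} {K : Type} [Field K] [NumberField K] {r : K}

lemma isRK (K : Type) [Field K] : IsR ((Em 1).map (Int.castRingHom K)) (0 : K) (-9) 16 := by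
  refine ⟨?_, ?_, ?_, ?_, ?_⟩ <;> simp [Em] <;> ring

lemma key_sq {k x : K} (hk : k ≠ 0) (h : IsSquare (k * k * x)) : IsSquare x := by
  obtain ⟨z, hz⟩ := h
  refine ⟨z / k, ?_⟩
  field_simp
  linear_combination hz

/-- the double of a point of order four -/
lemma dbl4 (h : Qd m K r) (hm : Squarefree m) (h1 : m ≠ 1) (h2 : m ≠ -1)
    (P : ((Em 1).map (Int.castRingHom K)).toAffine.Point) (h4 : (P + P) + (P + P) = 0)
    (hne : P + P ≠ 0) : ∃ H, P + P = Affine.Point.some (16 : K) 0 H := by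
  have hR := isRK K
  have h2K : (2 : K) ≠ 0 := two_ne_zero
  obtain ⟨e, he, hP2, hee⟩ := two_tor hR h2K h4 hne
  rcases P with _ | ⟨x, y, hxy⟩
  · exact absurd (add_zero _) hne
  have hy : y ≠ 0 := by
    rintro rfl
    exact hne (dbl_T hR hxy)
  have s1 := dbl_sq hR h2K hxy hy he hP2
  have s2 := dbl_sq hR.rot h2K hxy hy he hP2
  have s3 := dbl_sq hR.rot.rot h2K hxy hy he hP2
  rcases hee with rfl | rfl | rfl
  · exfalso
    apply neg_one_not_sq h hm h1 h2
    apply key_sq (k := (4 : K)) (by norm_num)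
    have e1 : (4 : K) * 4 * -1 = 0 - 16 := by norm_num
    rw [e1]
    exact s3
  · exfalso
    apply neg_one_not_sq h hm h1 h2
    apply key_sq (k := (3 : K)) (by norm_num)
    have e1 : (3 : K) * 3 * -1 = -9 - 0 := by norm_num
    rw [e1]
    exact s1
  · exact ⟨he, hP2⟩

/-- doubling -/
lemma dblK {x y : K} (h : ((Em 1).map (Int.castRingHom K)).toAffine.Nonsingular x y) (hy : y ≠ 0)
    {X Y : K} (H : ((Em 1).map (Int.castRingHom K)).toAffine.Nonsingular X Y)
    (he : (Affine.Point.some x y h + Affine.Point.some x y h :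
      ((Em 1).map (Int.castRingHom K)).toAffine.Point) = Affine.Point.some X Y H) :
    X * (2 * y) ^ 2 = (x ^ 2 + 144) ^ 2 := by
  have hR := isRK K
  have h2K : (2 : K) ≠ 0 := two_ne_zero
  have hneg : y ≠ ((Em 1).map (Int.castRingHom K)).toAffine.negY x y := by
    intro h1
    apply hy
    rw [Affine.negY, hR.h1, hR.h3] at h1
    have : 2 * y = 0 := by linear_combination h1
    exact (mul_eq_zero.1 this).resolve_left h2K
  rw [Affine.Point.add_self_of_Y_ne hneg] at he
  injection he with e1 e2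
  have q1 := (isR_eqn hR).1 h.1
  have h2y : 2 * y ≠ 0 := mul_ne_zero h2K hy
  have hs : ((Em 1).map (Int.castRingHom K)).toAffine.slope x x y y =
      (3 * x ^ 2 - 14 * x - 144) / (2 * y) := by
    rw [Affine.slope_of_Y_ne rfl hneg, Affine.negY, hR.h1, hR.h2, hR.h3, hR.h4]
    congr 1
    · ring
    · ring
  rw [Affine.addX, hs, hR.h1, hR.h2, zero_mul, add_zero] at e1
  rw [← e1]
  field_simp
  linear_combination (-4 * (2 * x - 7)) * q1

/-- the point `(36, 180)` -/
lemma nsR (K : Type) [Field K] [NumberField K] :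
    ((Em 1).map (Int.castRingHom K)).toAffine.Nonsingular (36 : K) 180 := by
  apply Pool.Agent.Y700.nonsing (delta_ne K)
  rw [isR_eqn (isRK K)]
  norm_num

lemma dblR (K : Type) [Field K] [NumberField K] :
    ∃ H, (Affine.Point.some (36 : K) 180 (nsR K) + Affine.Point.some (36 : K) 180 (nsR K) :
      ((Em 1).map (Int.castRingHom K)).toAffine.Point) = Affine.Point.some (16 : K) 0 H := by
  have hR := isRK K
  have hneg : (180 : K) ≠ ((Em 1).map (Int.castRingHom K)).toAffine.negY 36 180 := by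
    intro h1
    rw [Affine.negY, hR.h1, hR.h3] at h1
    have : (360 : K) = 0 := by linear_combination h1
    norm_num at this
  have hs : ((Em 1).map (Int.castRingHom K)).toAffine.slope (36 : K) 36 180 180 = 9 := by
    rw [Affine.slope_of_Y_ne rfl hneg, Affine.negY, hR.h1, hR.h2, hR.h3, hR.h4]
    norm_num
  have e1 : ((Em 1).map (Int.castRingHom K)).toAffine.addX (36 : K) 36 9 = 16 := by
    rw [Affine.addX, hR.h1, hR.h2]
    norm_num
  have e2 : ((Em 1).map (Int.castRingHom K)).toAffine.addY (36 : K) 36 180 9 = 0 := by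
    rw [Affine.addY, Affine.negAddY, Affine.negY, e1, hR.h1, hR.h3]
    norm_num
  have H : ((Em 1).map (Int.castRingHom K)).toAffine.Nonsingular (16 : K) 0 := by
    apply Pool.Agent.Y700.nonsing (delta_ne K)
    rw [isR_eqn (isRK K)]
    norm_num
  refine ⟨H, ?_⟩
  rw [Affine.Point.add_self_of_Y_ne hneg]
  congr 1
  · rw [hs, e1]
  · rw [hs, e2]

/-- there is no point of order eight -/
lemma no_eight (h : Qd m K r) (hm : Squarefree m) (h1 : m ≠ 1) (h2 : m ≠ -1) (h5 : m ≠ 5)
    (P : ((Em 1).map (Int.castRingHom K)).toAffine.Point)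
    (h8 : ((P + P) + (P + P)) + ((P + P) + (P + P)) = 0) : (P + P) + (P + P) = 0 := by
  by_contra hne
  have hR := isRK K
  have h2K : (2 : K) ≠ 0 := two_ne_zero
  obtain ⟨Q, hQ⟩ : ∃ Q, Q = P + P := ⟨_, rfl⟩
  rw [← hQ] at h8 hne
  obtain ⟨H, hH⟩ := dbl4 h hm h1 h2 Q h8 hne
  rcases Q with _ | ⟨x, y, hxy⟩
  · exact absurd (add_zero _) hne
  have hy : y ≠ 0 := by
    rintro rfl
    exact hne (dbl_T hR hxy)
  have q1 := (isR_eqn hR).1 hxy.1
  have q2 := dblK hxy hy H hH
  have q3 : (x - 36) * (x + 4) = 0 := by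
    have : ((x - 36) * (x + 4)) ^ 2 = 0 := by
      linear_combination -q2 + 64 * q1
    exact pow_eq_zero_iff two_ne_zero |>.1 this
  -- halving
  rcases P with _ | ⟨x', y', hxy'⟩
  · exact absurd hQ (by
      intro h0
      exact Affine.Point.some_ne_zero hxy (h0.trans (add_zero _)))
  have hy' : y' ≠ 0 := by
    rintro rfl
    rw [dbl_T hR hxy'] at hQ
    exact Affine.Point.some_ne_zero hxy hQ
  have s1 := dbl_sq hR h2K hxy' hy' hxy hQ.symm
  have s2 := dbl_sq hR.rot h2K hxy' hy' hxy hQ.symm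
  rcases mul_eq_zero.1 q3 with h0 | h0
  · apply sq5 h hm h1 h5
    apply key_sq (k := (3 : K)) (by norm_num)
    have e1 : (3 : K) * 3 * 5 = x - -9 := by linear_combination -h0
    rw [e1]
    exact s2
  · apply neg_one_not_sq h hm h1 h2
    apply key_sq (k := (2 : K)) (by norm_num)
    have e1 : (2 : K) * 2 * -1 = x - 0 := by linear_combination -h0
    rw [e1]
    exact s1

end four

/-- K15-TOR -/
theorem t_TOR : S_TOR := by
  intro m hm h1 h2 h5 K _ _ r h
  have hR := isRK K
  have h2K : (2 : K) ≠ 0 := two_ne_zero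
  have hab : (0 : K) ≠ -9 := by norm_num
  have hac : (0 : K) ≠ 16 := by norm_num
  have hbc : (-9 : K) ≠ 16 := by norm_num
  have hfin : Finite (AddCommGroup.torsion ((Em 1).map (Int.castRingHom K)).toAffine.Point) :=
    finite_tors (fg_of hR hab hac hbc)
  have h4 : (1 : ℤ) % 4 = 1 := by norm_num
  let e := torsEquiv ((vr h4 K).equiv (WN_Δ_ne h4 K))
  have hcard : Nat.card (AddCommGroup.torsion (base (WN 1) K).toAffine.Point) =
      Nat.card (AddCommGroup.torsion ((Em 1).map (Int.castRingHom K)).toAffine.Point) :=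
    Nat.card_congr e
  refine ⟨Finite.of_equiv _ e.symm, ?_⟩
  rw [hcard]
  obtain ⟨HR, hRR⟩ := dblR K
  have hR4 : (Affine.Point.some (36 : K) 180 (nsR K) + Affine.Point.some (36 : K) 180 (nsR K)) +
      (Affine.Point.some (36 : K) 180 (nsR K) + Affine.Point.some (36 : K) 180 (nsR K)) =
      (0 : ((Em 1).map (Int.castRingHom K)).toAffine.Point) := by
    rw [hRR]
    exact dbl_T hR HR
  have hRt : (Affine.Point.some (36 : K) 180 (nsR K) :
      ((Em 1).map (Int.castRingHom K)).toAffine.Point) ∈ AddCommGroup.torsion _ := by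
    have h6 : IsOfFinAddOrder (Affine.Point.some (36 : K) 180 (nsR K) :
        ((Em 1).map (Int.castRingHom K)).toAffine.Point) := by
      refine isOfFinAddOrder_iff_nsmul_eq_zero.2 ⟨4, by norm_num, ?_⟩
      rw [show (4 : ℕ) = 2 + 2 by norm_num, add_nsmul, two_nsmul]
      exact hR4
    exact h6
  obtain ⟨t, ht, he⟩ : ∃ t : ℕ, Odd t ∧
      Nat.card (AddCommGroup.torsion ((Em 1).map (Int.castRingHom K)).toAffine.Point) = 8 * t := by
    refine card_eight (two_card hR h2K hab hac hbc) ⟨_, hRt⟩ ?_ ?_ ?_ ?_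
    · intro h0
      have h6 := congrArg Subtype.val h0
      have h7 : (Affine.Point.some (36 : K) 180 (nsR K) + Affine.Point.some (36 : K) 180 (nsR K) :
        ((Em 1).map (Int.castRingHom K)).toAffine.Point) = 0 := h6
      rw [hRR] at h7
      exact Affine.Point.some_ne_zero HR h7
    · exact Subtype.ext hR4
    · rintro ⟨P, hP⟩ h6
      by_cases h7 : P + P = 0
      · left
        exact Subtype.ext h7
      · right
        obtain ⟨H, hH⟩ := dbl4 h hm h1 h2 P (congrArg Subtype.val h6) h7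
        apply Subtype.ext
        show P + P = Affine.Point.some (36 : K) 180 (nsR K) + Affine.Point.some (36 : K) 180 (nsR K)
        rw [hH, hRR]
    · rintro ⟨P, hP⟩ h6
      exact Subtype.ext (no_eight h hm h1 h2 h5 P (congrArg Subtype.val h6))
  by_cases ht1 : t = 1
  · rw [he, ht1]
  exfalso
  obtain ⟨l, hl, hlt⟩ := Nat.exists_prime_and_dvd ht1
  have hl2 : Odd l := by
    obtain ⟨c, rfl⟩ := hlt
    exact (Nat.odd_mul.1 ht).1
  haveI := Fact.mk hl
  obtain ⟨x, hx⟩ := exists_prime_addOrderOf_dvd_card' (G := AddCommGroup.torsion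
    ((Em 1).map (Int.castRingHom K)).toAffine.Point) l (by
      rw [he]
      exact hlt.mul_left 8)
  have h7 : l • x = 0 := by
    rw [← hx]
    exact addOrderOf_nsmul_eq_zero x
  have h3 : l • (x : ((Em 1).map (Int.castRingHom K)).toAffine.Point) = 0 := congrArg Subtype.val h7
  have h8 := no_oddK h hm h1 _ hl2 h3
  have h6 : x = 0 := Subtype.ext h8
  rw [h6, addOrderOf_zero] at hx
  exact hl.one_lt.ne hx

end Pool.Agent.N247.K15
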